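import Mathlib

set_option autoImplicit false

open Pointwise

namespace Pool.Agent.Results.MP_8f98a9_co.Counter

/-- the point of `ℝ^n` given by a lattice point of `M = ℤ^n` -/
def latt {n : ℕ} (u : Fin n → ℤ) : Fin n → ℝ := fun i => (u i : ℝ)

/-- `(P ∩ M) + (rP ∩ M) = (r+1)P ∩ M` for every integer `r ≥ 1` -/
def IntegrallyClosed {n : ℕ} (P : Set (Fin n → ℝ)) : Prop :=
  ∀ r : ℕ, 1 ≤ r → ∀ c : Fin n → ℤ,
    (∃ a b : Fin n → ℤ, latt a ∈ P ∧ latt b ∈ (r : ℝ) • P ∧ c = a + b) ↔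
      latt c ∈ ((r : ℝ) + 1) • P

/-- an edge: a face (extreme subset) that is a nondegenerate segment -/
def IsEdge {n : ℕ} (P e : Set (Fin n → ℝ)) : Prop :=
  (∃ u v : Fin n → ℝ, u ≠ v ∧ e = segment ℝ u v) ∧ IsExtreme ℝ P e

/-- number of lattice points minus one -/
noncomputable def latticeLength {n : ℕ} (e : Set (Fin n → ℝ)) : ℕ :=
  {m : Fin n → ℤ | latt m ∈ e}.ncard - 1

/-- the least lattice length of an edge -/
noncomputable def L {n : ℕ} (P : Set (Fin n → ℝ)) : ℕ :=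
  sInf {l | ∃ e, IsEdge P e ∧ l = latticeLength e}

/-- the tangent cone of `P` at `v`, translated to `0` -/
def tangentCone {n : ℕ} (P : Set (Fin n → ℝ)) (v : Fin n → ℝ) : Set (Fin n → ℝ) :=
  {x | ∃ t : ℝ, 0 ≤ t ∧ ∃ p ∈ P, x = t • (p - v)}

/-- `w` is the first nonzero lattice point on an extreme ray of `Q` -/
def IsRayGen {n : ℕ} (Q : Set (Fin n → ℝ)) (w : Fin n → ℤ) : Prop :=
  w ≠ 0 ∧ (∀ t : ℝ, 0 < t → t < 1 → ∀ m : Fin n → ℤ, t • latt w ≠ latt m) ∧
    IsExtreme ℝ Q {x | ∃ t : ℝ, 0 ≤ t ∧ x = t • latt w}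

/-- `β` is an irreducible element of the semigroup `Q ∩ M` -/
def IsHilb {n : ℕ} (Q : Set (Fin n → ℝ)) (β : Fin n → ℤ) : Prop :=
  latt β ∈ Q ∧ β ≠ 0 ∧
    ∀ a b : Fin n → ℤ, latt a ∈ Q → latt b ∈ Q → β = a + b → a = 0 ∨ b = 0

/-- the values `∑ a_i` over all `u = ∑ a_i w_i`, `a_i ≥ 0` real, `w_i` ray generators -/
def htSet {n : ℕ} (Q : Set (Fin n → ℝ)) (u : Fin n → ℤ) : Set ℝ :=
  {s | ∃ (T : Finset (Fin n → ℤ)) (a : (Fin n → ℤ) → ℝ),
    (∀ w ∈ T, IsRayGen Q w ∧ 0 ≤ a w) ∧ latt u = ∑ w ∈ T, a w • latt w ∧ s = ∑ w ∈ T, a w}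

/-- the values `∑ λ_j` over all `u = ∑ λ_j β_j`, `λ_j ∈ ℕ`, `β_j` in the Hilbert basis -/
def ordSet {n : ℕ} (Q : Set (Fin n → ℝ)) (u : Fin n → ℤ) : Set ℝ :=
  {s | ∃ (T : Finset (Fin n → ℤ)) (a : (Fin n → ℤ) → ℕ),
    (∀ w ∈ T, IsHilb Q w) ∧ u = ∑ w ∈ T, a w • w ∧ s = ((∑ w ∈ T, a w : ℕ) : ℝ)}

/-- the half-open zonotope `S_Q` -/
def SQ {n : ℕ} (Q : Set (Fin n → ℝ)) : Set (Fin n → ℝ) :=
  {x | ∃ (T : Finset (Fin n → ℤ)) (a : (Fin n → ℤ) → ℝ),
    (∀ w ∈ T, IsRayGen Q w ∧ 0 ≤ a w ∧ a w < 1) ∧ x = ∑ w ∈ T, a w • latt w}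

/-- `Γ_Q` -/
noncomputable def GammaCone {n : ℕ} (Q : Set (Fin n → ℝ)) : ℝ :=
  sSup {g | ∃ u : Fin n → ℤ, latt u ∈ SQ Q ∧ g = sSup (htSet Q u) - sSup (ordSet Q u)}

/-- `Γ_P` -/
noncomputable def Gamma {n : ℕ} (P : Set (Fin n → ℝ)) : ℝ :=
  sSup {g | ∃ v ∈ P.extremePoints ℝ, g = GammaCone (tangentCone P v)}

theorem latt_add {n : ℕ} (a b : Fin n → ℤ) : latt (a + b) = latt a + latt b := by
  ext i; simp [latt]

theorem latt_zero {n : ℕ} : latt (0 : Fin n → ℤ) = 0 := by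
  ext i; simp [latt]

theorem latt_inj {n : ℕ} {a b : Fin n → ℤ} (h : latt a = latt b) : a = b := by
  ext i
  have := congrFun h i
  simpa [latt] using this

theorem latt_nsmul {n : ℕ} (k : ℕ) (a : Fin n → ℤ) : latt (k • a) = (k : ℝ) • latt a := by
  ext i; simp [latt]

theorem latt_sum {n : ℕ} (T : Finset (Fin n → ℤ)) (a : (Fin n → ℤ) → ℕ) :
    latt (∑ w ∈ T, a w • w) = ∑ w ∈ T, (a w : ℝ) • latt w := by
  ext i; simp [latt, Finset.sum_apply]

/-- closure properties of a convex cone -/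
structure IsCone {n : ℕ} (Q : Set (Fin n → ℝ)) : Prop where
  zero : (0 : Fin n → ℝ) ∈ Q
  add : ∀ x ∈ Q, ∀ y ∈ Q, x + y ∈ Q
  smul : ∀ t : ℝ, 0 ≤ t → ∀ x ∈ Q, t • x ∈ Q

theorem isCone_tangentCone {n : ℕ} {P : Set (Fin n → ℝ)} (hP : Convex ℝ P) {v : Fin n → ℝ}
    (hv : v ∈ P) : IsCone (tangentCone P v) where
  zero := ⟨0, le_rfl, v, hv, by simp⟩
  add := by
    rintro x ⟨s, hs, p, hp, rfl⟩ y ⟨t, ht, q, hq, rfl⟩
    rcases (add_nonneg hs ht).eq_or_lt with h | h
    · have hs0 : s = 0 := by linarith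
      have ht0 : t = 0 := by linarith
      exact ⟨0, le_rfl, v, hv, by simp [hs0, ht0]⟩
    · refine ⟨s + t, h.le, (s / (s + t)) • p + (t / (s + t)) • q,
        hP hp hq (by positivity) (by positivity) (by field_simp), ?_⟩
      ext i
      simp only [Pi.add_apply, Pi.smul_apply, Pi.sub_apply, smul_eq_mul]
      field_simp
      ring
  smul := by
    rintro t ht x ⟨s, hs, p, hp, rfl⟩
    exact ⟨t * s, by positivity, p, hp, by rw [mul_smul]⟩

theorem hilb_of_rayGen {n : ℕ} {Q : Set (Fin n → ℝ)} (hQ : IsCone Q) {w : Fin n → ℤ}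
    (h : IsRayGen Q w) : IsHilb Q w := by
  obtain ⟨h0, h1, h2⟩ := h
  refine ⟨h2.subset ⟨1, zero_le_one, by simp⟩, h0, ?_⟩
  intro a b ha hb hab
  have hw : latt w ∈ openSegment ℝ ((2 : ℝ) • latt a) ((2 : ℝ) • latt b) := by
    refine ⟨1 / 2, 1 / 2, by norm_num, by norm_num, by norm_num, ?_⟩
    rw [hab, latt_add]
    ext i
    simp only [Pi.add_apply, Pi.smul_apply, smul_eq_mul]
    ring
  have ha2 := hQ.smul 2 (by norm_num) _ ha
  have hb2 := hQ.smul 2 (by norm_num) _ hb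
  obtain ⟨s, hs, hsa⟩ := h2.left_mem_of_mem_openSegment ha2 hb2 ⟨1, zero_le_one, by simp⟩ hw
  obtain ⟨t, ht, htb⟩ := h2.right_mem_of_mem_openSegment ha2 hb2 ⟨1, zero_le_one, by simp⟩ hw
  have e1 : latt a = (s / 2) • latt w := by
    ext i
    have := congrFun hsa i
    simp only [Pi.smul_apply, smul_eq_mul] at this ⊢
    linarith
  have e2 : latt b = (t / 2) • latt w := by
    ext i
    have := congrFun htb i
    simp only [Pi.smul_apply, smul_eq_mul] at this ⊢
    linarith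
  obtain ⟨i, hi⟩ : ∃ i, w i ≠ 0 := by
    by_contra hc
    push Not at hc
    exact h0 (funext hc)
  have hi' : (latt w i) ≠ 0 := by simpa [latt] using hi
  have hsum : s / 2 + t / 2 = 1 := by
    have e3 : latt w = latt a + latt b := by rw [hab, latt_add]
    rw [e1, e2] at e3
    have := congrFun e3 i
    simp only [Pi.add_apply, Pi.smul_apply, smul_eq_mul] at this
    have h4 : (s / 2 + t / 2 - 1) * latt w i = 0 := by linarith
    rcases mul_eq_zero.mp h4 with h5 | h5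
    · linarith
    · exact absurd h5 hi'
  rcases hs.eq_or_lt with hs0 | hs0
  · left
    apply latt_inj
    rw [e1, ← hs0, latt_zero]
    simp
  rcases ht.eq_or_lt with ht0 | ht0
  · right
    apply latt_inj
    rw [e2, ← ht0, latt_zero]
    simp
  exact absurd e1.symm (h1 (s / 2) (by linarith) (by linarith) a)

/-- LP-duality certificate giving `ht u = ord u` -/
theorem cert {n : ℕ} {Q : Set (Fin n → ℝ)} (hQ : IsCone Q) (u b1 b2 b3 : Fin n → ℤ)
    (h12 : b1 ≠ b2) (h13 : b1 ≠ b3) (h23 : b2 ≠ b3)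
    (r1 : IsRayGen Q b1) (r2 : IsRayGen Q b2) (r3 : IsRayGen Q b3)
    (α β γ : ℕ) (hu : u = α • b1 + β • b2 + γ • b3)
    (f : (Fin n → ℝ) →ₗ[ℝ] ℝ) (f1 : f (latt b1) = 1) (f2 : f (latt b2) = 1)
    (f3 : f (latt b3) = 1) (hf : ∀ w, IsHilb Q w → 1 ≤ f (latt w)) :
    ∃ k : ℕ, IsGreatest (htSet Q u) (k : ℝ) ∧ IsGreatest (ordSet Q u) (k : ℝ) := by
  classical
  have hfu : f (latt u) = ((α + β + γ : ℕ) : ℝ) := by
    rw [hu, latt_add, latt_add, latt_nsmul, latt_nsmul, latt_nsmul]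
    simp [f1, f2, f3]
  let a : (Fin n → ℤ) → ℕ := fun w => if w = b1 then α else if w = b2 then β else γ
  have a1 : a b1 = α := by simp [a]
  have a2 : a b2 = β := by simp [a, h12.symm]
  have a3 : a b3 = γ := by simp [a, h13.symm, h23.symm]
  have n1 : b1 ∉ ({b2, b3} : Finset (Fin n → ℤ)) := by simp [h12, h13]
  have n2 : b2 ∉ ({b3} : Finset (Fin n → ℤ)) := by simp [h23]
  have hT : ∀ w ∈ ({b1, b2, b3} : Finset (Fin n → ℤ)), IsRayGen Q w := by
    intro w hw
    simp only [Finset.mem_insert, Finset.mem_singleton] at hw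
    rcases hw with rfl | rfl | rfl <;> assumption
  have hu' : u = ∑ w ∈ ({b1, b2, b3} : Finset (Fin n → ℤ)), a w • w := by
    rw [Finset.sum_insert n1, Finset.sum_insert n2, Finset.sum_singleton, a1, a2, a3, hu,
      add_assoc]
  have hs' : α + β + γ = ∑ w ∈ ({b1, b2, b3} : Finset (Fin n → ℤ)), a w := by
    rw [Finset.sum_insert n1, Finset.sum_insert n2, Finset.sum_singleton, a1, a2, a3, add_assoc]
  have bound : ∀ (T : Finset (Fin n → ℤ)) (c : (Fin n → ℤ) → ℝ),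
      (∀ w ∈ T, IsHilb Q w ∧ 0 ≤ c w) → latt u = ∑ w ∈ T, c w • latt w →
      ∑ w ∈ T, c w ≤ ((α + β + γ : ℕ) : ℝ) := by
    intro T c hc he
    rw [← hfu, he, map_sum]
    apply Finset.sum_le_sum
    intro w hw
    rw [map_smul, smul_eq_mul]
    have := hf w (hc w hw).1
    nlinarith [(hc w hw).2]
  refine ⟨α + β + γ, ⟨⟨{b1, b2, b3}, fun w => (a w : ℝ), fun w hw => ⟨hT w hw, by positivity⟩,
    ?_, ?_⟩, ?_⟩, ⟨⟨{b1, b2, b3}, a, fun w hw => hilb_of_rayGen hQ (hT w hw), hu', ?_⟩, ?_⟩⟩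
  · rw [← latt_sum, ← hu']
  · rw [hs']; push_cast; rfl
  · rintro s ⟨T, c, hc, he, rfl⟩
    exact bound T c (fun w hw => ⟨hilb_of_rayGen hQ (hc w hw).1, (hc w hw).2⟩) he
  · rw [hs']
  · rintro s ⟨T, c, hc, he, rfl⟩
    have := bound T (fun w => (c w : ℝ)) (fun w hw => ⟨hc w hw, by positivity⟩)
      (by rw [← latt_sum, ← he])
    push_cast at this ⊢
    exact this

/-- an irreducible element that is an `ℕ`-combination of three cone elements is one of them -/
theorem hilb_cases {n : ℕ} {Q : Set (Fin n → ℝ)} (hQ : IsCone Q) (w b1 b2 b3 : Fin n → ℤ)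
    (m1 : latt b1 ∈ Q) (m2 : latt b2 ∈ Q) (m3 : latt b3 ∈ Q)
    (z1 : b1 ≠ 0) (z2 : b2 ≠ 0) (z3 : b3 ≠ 0)
    (α β γ : ℕ) (hu : w = α • b1 + β • b2 + γ • b3) (hw : IsHilb Q w) :
    w = b1 ∨ w = b2 ∨ w = b3 := by
  have mem : ∀ a b c : ℕ, latt (a • b1 + b • b2 + c • b3) ∈ Q := by
    intro a b c
    rw [latt_add, latt_add, latt_nsmul, latt_nsmul, latt_nsmul]
    exact hQ.add _ (hQ.add _ (hQ.smul _ (by positivity) _ m1) _ (hQ.smul _ (by positivity) _ m2))
      _ (hQ.smul _ (by positivity) _ m3)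
  obtain ⟨_, h0, h⟩ := hw
  rcases α with _ | α
  · rcases β with _ | β
    · rcases γ with _ | γ
      · exact absurd (by simpa using hu) h0
      · have e : w = b3 + (0 • b1 + 0 • b2 + γ • b3) := by rw [hu, succ_nsmul]; abel
        rcases h _ _ m3 (mem 0 0 γ) e with h' | h'
        · exact absurd h' z3
        · right; right; rw [e, h', add_zero]
    · have e : w = b2 + (0 • b1 + β • b2 + γ • b3) := by rw [hu, succ_nsmul]; abel
      rcases h _ _ m2 (mem 0 β γ) e with h' | h'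
      · exact absurd h' z2
      · right; left; rw [e, h', add_zero]
  · have e : w = b1 + (α • b1 + β • b2 + γ • b3) := by rw [hu, succ_nsmul]; abel
    rcases h _ _ m1 (mem α β γ) e with h' | h'
    · exact absurd h' z1
    · left; rw [e, h', add_zero]

theorem rayGen_of {n : ℕ} {Q : Set (Fin n → ℝ)} (hQ : IsCone Q) (w : Fin n → ℤ)
    (hw : latt w ∈ Q) (φ g : (Fin n → ℝ) →ₗ[ℝ] ℝ) (hφ : ∀ m, ∃ k : ℤ, φ (latt m) = k)
    (h1 : φ (latt w) = 1) (hg : ∀ x ∈ Q, 0 ≤ g x) (hgw : g (latt w) = 0)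
    (hz : ∀ x ∈ Q, g x = 0 → 0 ≤ φ x ∧ x = φ x • latt w) : IsRayGen Q w := by
  refine ⟨?_, ?_, ?_, ?_⟩
  · rintro rfl
    rw [latt_zero, map_zero] at h1
    exact zero_ne_one h1
  · intro t ht0 ht1 m h
    obtain ⟨k, hk⟩ := hφ m
    rw [← h, map_smul, h1, smul_eq_mul, mul_one] at hk
    rw [hk] at ht0 ht1
    have h2 : (0 : ℤ) < k := by exact_mod_cast ht0
    have h3 : k < (1 : ℤ) := by exact_mod_cast ht1
    omega
  · rintro x ⟨t, ht, rfl⟩
    exact hQ.smul t ht _ hw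
  · rintro x hx y hy z ⟨t, ht, rfl⟩ ⟨a, b, ha, hb, hab, h⟩
    have h2 : g (a • x + b • y) = 0 := by rw [h, map_smul, hgw]; simp
    rw [map_add, map_smul, map_smul, smul_eq_mul, smul_eq_mul] at h2
    have h3 := hg x hx
    have h4 := hg y hy
    have h5 : g x = 0 := by nlinarith
    exact ⟨φ x, (hz x hx h5).1, (hz x hx h5).2⟩

/-- the functional given by an integer vector -/
def fn (c : Fin 3 → ℤ) : (Fin 3 → ℝ) →ₗ[ℝ] ℝ where
  toFun x := c 0 * x 0 + c 1 * x 1 + c 2 * x 2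
  map_add' x y := by simp only [Pi.add_apply]; ring
  map_smul' t x := by simp only [Pi.smul_apply, smul_eq_mul, RingHom.id_apply]; ring

theorem fn_apply (c : Fin 3 → ℤ) (x : Fin 3 → ℝ) :
    fn c x = c 0 * x 0 + c 1 * x 1 + c 2 * x 2 := rfl

theorem fn_latt (c m : Fin 3 → ℤ) :
    fn c (latt m) = ((c 0 * m 0 + c 1 * m 1 + c 2 * m 2 : ℤ) : ℝ) := by
  simp [fn_apply, latt]

theorem fn_int (c m : Fin 3 → ℤ) : ∃ k : ℤ, fn c (latt m) = k := ⟨_, fn_latt c m⟩

/-- duality relations -/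
structure Dual (b1 b2 b3 : Fin 3 → ℤ) (φ1 φ2 φ3 : (Fin 3 → ℝ) →ₗ[ℝ] ℝ) : Prop where
  i1 : ∀ m, ∃ k : ℤ, φ1 (latt m) = k
  i2 : ∀ m, ∃ k : ℤ, φ2 (latt m) = k
  i3 : ∀ m, ∃ k : ℤ, φ3 (latt m) = k
  d11 : φ1 (latt b1) = 1
  d12 : φ1 (latt b2) = 0
  d13 : φ1 (latt b3) = 0
  d21 : φ2 (latt b1) = 0
  d22 : φ2 (latt b2) = 1
  d23 : φ2 (latt b3) = 0
  d31 : φ3 (latt b1) = 0
  d32 : φ3 (latt b2) = 0
  d33 : φ3 (latt b3) = 1
  span : ∀ x, x = φ1 x • latt b1 + φ2 x • latt b2 + φ3 x • latt b3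

theorem Dual.natrep {b1 b2 b3 : Fin 3 → ℤ} {φ1 φ2 φ3 : (Fin 3 → ℝ) →ₗ[ℝ] ℝ}
    (D : Dual b1 b2 b3 φ1 φ2 φ3) (u : Fin 3 → ℤ) (h1 : 0 ≤ φ1 (latt u)) (h2 : 0 ≤ φ2 (latt u))
    (h3 : 0 ≤ φ3 (latt u)) : ∃ α β γ : ℕ, u = α • b1 + β • b2 + γ • b3 := by
  obtain ⟨k1, e1⟩ := D.i1 u
  obtain ⟨k2, e2⟩ := D.i2 u
  obtain ⟨k3, e3⟩ := D.i3 u
  rw [e1] at h1
  rw [e2] at h2
  rw [e3] at h3
  lift k1 to ℕ using (by exact_mod_cast h1)
  lift k2 to ℕ using (by exact_mod_cast h2)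
  lift k3 to ℕ using (by exact_mod_cast h3)
  refine ⟨k1, k2, k3, latt_inj ?_⟩
  rw [latt_add, latt_add, latt_nsmul, latt_nsmul, latt_nsmul]
  have := D.span (latt u)
  rw [e1, e2, e3] at this
  simpa using this

theorem Dual.ne {b1 b2 b3 : Fin 3 → ℤ} {φ1 φ2 φ3 : (Fin 3 → ℝ) →ₗ[ℝ] ℝ}
    (D : Dual b1 b2 b3 φ1 φ2 φ3) :
    b1 ≠ b2 ∧ b1 ≠ b3 ∧ b2 ≠ b3 ∧ b1 ≠ 0 ∧ b2 ≠ 0 ∧ b3 ≠ 0 := by
  refine ⟨?_, ?_, ?_, ?_, ?_, ?_⟩
  · intro h; have := D.d11; rw [h, D.d12] at this; exact zero_ne_one this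
  · intro h; have := D.d11; rw [h, D.d13] at this; exact zero_ne_one this
  · intro h; have := D.d22; rw [h, D.d23] at this; exact zero_ne_one this
  · intro h; have := D.d11; rw [h, latt_zero, map_zero] at this; exact zero_ne_one this
  · intro h; have := D.d22; rw [h, latt_zero, map_zero] at this; exact zero_ne_one this
  · intro h; have := D.d33; rw [h, latt_zero, map_zero] at this; exact zero_ne_one this

/-- the conclusion wanted at each vertex cone -/
def Good (Q : Set (Fin 3 → ℝ)) : Prop :=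
  ∀ u : Fin 3 → ℤ, latt u ∈ Q →
    ∃ k : ℕ, IsGreatest (htSet Q u) (k : ℝ) ∧ IsGreatest (ordSet Q u) (k : ℝ)

/-- smooth cones -/
theorem good_smooth {Q : Set (Fin 3 → ℝ)} (hQ : IsCone Q)
    {b1 b2 b3 : Fin 3 → ℤ} {φ1 φ2 φ3 : (Fin 3 → ℝ) →ₗ[ℝ] ℝ} (D : Dual b1 b2 b3 φ1 φ2 φ3)
    (m1 : latt b1 ∈ Q) (m2 : latt b2 ∈ Q) (m3 : latt b3 ∈ Q)
    (hH : ∀ x ∈ Q, 0 ≤ φ1 x ∧ 0 ≤ φ2 x ∧ 0 ≤ φ3 x) : Good Q := by
  obtain ⟨n12, n13, n23, z1, z2, z3⟩ := D.ne
  have r1 : IsRayGen Q b1 := by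
    refine rayGen_of hQ b1 m1 φ1 (φ2 + φ3) D.i1 D.d11 ?_ (by simp [D.d21, D.d31]) ?_
    · intro x hx; have := hH x hx; simp only [LinearMap.add_apply]; linarith
    · intro x hx h
      obtain ⟨p1, p2, p3⟩ := hH x hx
      simp only [LinearMap.add_apply] at h
      have e2 : φ2 x = 0 := by linarith
      have e3 : φ3 x = 0 := by linarith
      have := D.span x
      rw [e2, e3] at this
      exact ⟨p1, by simpa using this⟩
  have r2 : IsRayGen Q b2 := by
    refine rayGen_of hQ b2 m2 φ2 (φ1 + φ3) D.i2 D.d22 ?_ (by simp [D.d12, D.d32]) ?_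
    · intro x hx; have := hH x hx; simp only [LinearMap.add_apply]; linarith
    · intro x hx h
      obtain ⟨p1, p2, p3⟩ := hH x hx
      simp only [LinearMap.add_apply] at h
      have e2 : φ1 x = 0 := by linarith
      have e3 : φ3 x = 0 := by linarith
      have := D.span x
      rw [e2, e3] at this
      exact ⟨p2, by simpa using this⟩
  have r3 : IsRayGen Q b3 := by
    refine rayGen_of hQ b3 m3 φ3 (φ1 + φ2) D.i3 D.d33 ?_ (by simp [D.d13, D.d23]) ?_
    · intro x hx; have := hH x hx; simp only [LinearMap.add_apply]; linarith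
    · intro x hx h
      obtain ⟨p1, p2, p3⟩ := hH x hx
      simp only [LinearMap.add_apply] at h
      have e2 : φ1 x = 0 := by linarith
      have e3 : φ2 x = 0 := by linarith
      have := D.span x
      rw [e2, e3] at this
      exact ⟨p3, by simpa using this⟩
  intro u hu
  obtain ⟨α, β, γ, e⟩ := D.natrep u (hH _ hu).1 (hH _ hu).2.1 (hH _ hu).2.2
  refine cert hQ u b1 b2 b3 n12 n13 n23 r1 r2 r3 α β γ e (φ1 + φ2 + φ3)
    (by simp [D.d11, D.d21, D.d31]) (by simp [D.d12, D.d22, D.d32])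
    (by simp [D.d13, D.d23, D.d33]) ?_
  intro w hw
  obtain ⟨α', β', γ', e'⟩ := D.natrep w (hH _ hw.1).1 (hH _ hw.1).2.1 (hH _ hw.1).2.2
  rcases hilb_cases hQ w b1 b2 b3 m1 m2 m3 z1 z2 z3 α' β' γ' e' hw with rfl | rfl | rfl
  · simp [D.d11, D.d21, D.d31]
  · simp [D.d12, D.d22, D.d32]
  · simp [D.d13, D.d23, D.d33]

/-- cones with four rays `b1, b4, b2, b3` and relation `b1 + b4 = b2 + 4 b3` -/
theorem good_four {Q : Set (Fin 3 → ℝ)} (hQ : IsCone Q)
    {b1 b2 b3 b4 : Fin 3 → ℤ} {φ1 φ2 φ3 : (Fin 3 → ℝ) →ₗ[ℝ] ℝ} (D : Dual b1 b2 b3 φ1 φ2 φ3)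
    (h4 : latt b4 = latt b2 + (4 : ℝ) • latt b3 - latt b1)
    (m1 : latt b1 ∈ Q) (m2 : latt b2 ∈ Q) (m3 : latt b3 ∈ Q) (m4 : latt b4 ∈ Q)
    (hH : ∀ x ∈ Q, 0 ≤ φ2 x ∧ 0 ≤ φ3 x ∧ 0 ≤ φ1 x + φ2 x ∧ 0 ≤ 4 * φ1 x + φ3 x) : Good Q := by
  have d14 : φ1 (latt b4) = -1 := by rw [h4]; simp [D.d11, D.d12, D.d13]
  have d24 : φ2 (latt b4) = 1 := by rw [h4]; simp [D.d21, D.d22, D.d23]
  have d34 : φ3 (latt b4) = 4 := by rw [h4]; simp [D.d31, D.d32, D.d33]
  have D' : Dual b4 b2 b3 (-φ1) (φ1 + φ2) ((4 : ℝ) • φ1 + φ3) :=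
    { i1 := fun m => by
        obtain ⟨k, hk⟩ := D.i1 m
        exact ⟨-k, by simp [hk]⟩
      i2 := fun m => by
        obtain ⟨k, hk⟩ := D.i1 m
        obtain ⟨l, hl⟩ := D.i2 m
        exact ⟨k + l, by simp [hk, hl]⟩
      i3 := fun m => by
        obtain ⟨k, hk⟩ := D.i1 m
        obtain ⟨l, hl⟩ := D.i3 m
        exact ⟨4 * k + l, by simp [hk, hl]⟩
      d11 := by simp [d14]
      d12 := by simp [D.d12]
      d13 := by simp [D.d13]
      d21 := by simp [d14, d24]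
      d22 := by simp [D.d12, D.d22]
      d23 := by simp [D.d13, D.d23]
      d31 := by simp [d14, d34]
      d32 := by simp [D.d12, D.d32]
      d33 := by simp [D.d13, D.d33]
      span := fun x => by
        have := D.span x
        rw [h4]
        ext i
        have hi := congrFun this i
        simp only [Pi.add_apply, Pi.smul_apply, Pi.sub_apply, smul_eq_mul, LinearMap.add_apply,
          LinearMap.neg_apply, LinearMap.smul_apply] at hi ⊢
        linarith }
  obtain ⟨n12, n13, n23, z1, z2, z3⟩ := D.ne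
  obtain ⟨n42, n43, _, z4, _, _⟩ := D'.ne
  have r1 : IsRayGen Q b1 := by
    refine rayGen_of hQ b1 m1 φ1 (φ2 + φ3) D.i1 D.d11 ?_ (by simp [D.d21, D.d31]) ?_
    · intro x hx; have := hH x hx; simp only [LinearMap.add_apply]; linarith
    · intro x hx h
      obtain ⟨p1, p2, p3, p4⟩ := hH x hx
      simp only [LinearMap.add_apply] at h
      have e2 : φ2 x = 0 := by linarith
      have e3 : φ3 x = 0 := by linarith
      have := D.span x
      rw [e2, e3] at this
      exact ⟨by linarith, by simpa using this⟩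
  have r2 : IsRayGen Q b2 := by
    refine rayGen_of hQ b2 m2 φ2 (φ3 + ((4 : ℝ) • φ1 + φ3)) D.i2 D.d22 ?_
      (by simp [D.d12, D.d32]) ?_
    · intro x hx; have := hH x hx
      simp only [LinearMap.add_apply, LinearMap.smul_apply, smul_eq_mul]; linarith
    · intro x hx h
      obtain ⟨p1, p2, p3, p4⟩ := hH x hx
      simp only [LinearMap.add_apply, LinearMap.smul_apply, smul_eq_mul] at h
      have e3 : φ3 x = 0 := by linarith
      have e2 : φ1 x = 0 := by linarith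
      have := D.span x
      rw [e2, e3] at this
      exact ⟨p1, by simpa using this⟩
  have r3 : IsRayGen Q b3 := by
    refine rayGen_of hQ b3 m3 φ3 (φ2 + (φ1 + φ2)) D.i3 D.d33 ?_ (by simp [D.d13, D.d23]) ?_
    · intro x hx; have := hH x hx; simp only [LinearMap.add_apply]; linarith
    · intro x hx h
      obtain ⟨p1, p2, p3, p4⟩ := hH x hx
      simp only [LinearMap.add_apply] at h
      have e3 : φ2 x = 0 := by linarith
      have e2 : φ1 x = 0 := by linarith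
      have := D.span x
      rw [e2, e3] at this
      exact ⟨p2, by simpa using this⟩
  have r4 : IsRayGen Q b4 := by
    refine rayGen_of hQ b4 m4 (-φ1) ((φ1 + φ2) + ((4 : ℝ) • φ1 + φ3)) D'.i1 D'.d11 ?_
      (by simp [d14, d24, d34]) ?_
    · intro x hx; have := hH x hx
      simp only [LinearMap.add_apply, LinearMap.smul_apply, smul_eq_mul]; linarith
    · intro x hx h
      obtain ⟨p1, p2, p3, p4⟩ := hH x hx
      simp only [LinearMap.add_apply, LinearMap.smul_apply, smul_eq_mul] at h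
      have e2 : (φ1 + φ2) x = 0 := by simp only [LinearMap.add_apply]; linarith
      have e3 : ((4 : ℝ) • φ1 + φ3) x = 0 := by
        simp only [LinearMap.add_apply, LinearMap.smul_apply, smul_eq_mul]; linarith
      have := D'.span x
      rw [e2, e3] at this
      refine ⟨?_, by simpa using this⟩
      simp only [LinearMap.neg_apply]
      linarith
  have hcases : ∀ w, IsHilb Q w → w = b1 ∨ w = b2 ∨ w = b3 ∨ w = b4 := by
    intro w hw
    obtain ⟨p1, p2, p3, p4⟩ := hH _ hw.1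
    rcases le_total 0 (φ1 (latt w)) with h | h
    · obtain ⟨α', β', γ', e'⟩ := D.natrep w h p1 p2
      rcases hilb_cases hQ w b1 b2 b3 m1 m2 m3 z1 z2 z3 α' β' γ' e' hw with h | h | h <;> tauto
    · obtain ⟨α', β', γ', e'⟩ := D'.natrep w (by simpa using h) (by simpa using p3)
        (by simpa using p4)
      rcases hilb_cases hQ w b4 b2 b3 m4 m2 m3 z4 z2 z3 α' β' γ' e' hw with h | h | h <;> tauto
  intro u hu
  obtain ⟨p1, p2, p3, p4⟩ := hH _ hu
  rcases le_total 0 (φ1 (latt u)) with h | h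
  · obtain ⟨α, β, γ, e⟩ := D.natrep u h p1 p2
    refine cert hQ u b1 b2 b3 n12 n13 n23 r1 r2 r3 α β γ e (φ1 + φ2 + φ3)
      (by simp [D.d11, D.d21, D.d31]) (by simp [D.d12, D.d22, D.d32])
      (by simp [D.d13, D.d23, D.d33]) ?_
    intro w hw
    rcases hcases w hw with rfl | rfl | rfl | rfl
    · simp [D.d11, D.d21, D.d31]
    · simp [D.d12, D.d22, D.d32]
    · simp [D.d13, D.d23, D.d33]
    · simp [d14, d24, d34]
  · obtain ⟨α, β, γ, e⟩ := D'.natrep u (by simpa using h) (by simpa using p3)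
        (by simpa using p4)
    refine cert hQ u b4 b2 b3 n42 n43 n23 r4 r2 r3 α β γ e ((4 : ℝ) • φ1 + φ2 + φ3)
      (by simp [d14, d24, d34]) (by simp [D.d12, D.d22, D.d32])
      (by simp [D.d13, D.d23, D.d33]) ?_
    intro w hw
    rcases hcases w hw with rfl | rfl | rfl | rfl
    · simp [D.d11, D.d21, D.d31]
    · simp [D.d12, D.d22, D.d32]
    · simp [D.d13, D.d23, D.d33]
    · simp [d14, d24, d34]

/-- the eight vertices -/
def V0 : Finset (Fin 3 → ℤ) :=
  {![0, 0, 0], ![0, 0, 1], ![1, 0, 0], ![1, 0, 1], ![0, 1, 0], ![0, 1, 1], ![1, 1, 4], ![1, 1, 5]}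

/-- the polytope -/
def P0 : Set (Fin 3 → ℝ) := convexHull ℝ (latt '' (V0 : Set (Fin 3 → ℤ)))

theorem convex_P0 : Convex ℝ P0 := convex_convexHull _ _

theorem mem_P0 {v : Fin 3 → ℤ} (h : v ∈ V0) : latt v ∈ P0 :=
  subset_convexHull _ _ ⟨v, h, rfl⟩

theorem ineq_P0 {p : Fin 3 → ℝ} (h : p ∈ P0) :
    0 ≤ p 0 ∧ p 0 ≤ 1 ∧ 0 ≤ p 1 ∧ p 1 ≤ 1 ∧ 0 ≤ p 2 ∧ 4 * (p 0 + p 1 - 1) ≤ p 2 ∧
      p 2 ≤ 1 + 4 * p 0 ∧ p 2 ≤ 1 + 4 * p 1 := by
  have : P0 ⊆ {p | 0 ≤ p 0 ∧ p 0 ≤ 1 ∧ 0 ≤ p 1 ∧ p 1 ≤ 1 ∧ 0 ≤ p 2 ∧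
      4 * (p 0 + p 1 - 1) ≤ p 2 ∧ p 2 ≤ 1 + 4 * p 0 ∧ p 2 ≤ 1 + 4 * p 1} := by
    apply convexHull_min
    · rintro _ ⟨v, hv, rfl⟩
      simp only [V0, Finset.coe_insert, Finset.coe_singleton, Set.mem_insert_iff,
        Set.mem_singleton_iff] at hv
      rcases hv with rfl | rfl | rfl | rfl | rfl | rfl | rfl | rfl <;>
        simp [latt] <;> norm_num
    · rintro x ⟨x1, x2, x3, x4, x5, x6, x7, x8⟩ y ⟨y1, y2, y3, y4, y5, y6, y7, y8⟩ a b ha hb hab
      simp only [Set.mem_setOf_eq, Pi.add_apply, Pi.smul_apply, smul_eq_mul]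
      have hb' : b = 1 - a := by linarith
      subst hb'
      refine ⟨?_, ?_, ?_, ?_, ?_, ?_, ?_, ?_⟩ <;> nlinarith
  exact this h

theorem mem_cone {v w b : Fin 3 → ℤ} (hw : w ∈ V0) (h : w = v + b) :
    latt b ∈ tangentCone P0 (latt v) :=
  ⟨1, zero_le_one, latt w, mem_P0 hw, by rw [h, latt_add]; simp⟩

theorem good0 : Good (tangentCone P0 (latt ![0, 0, 0])) := by
  have D : Dual ![1, 0, 0] ![0, 1, 0] ![0, 0, 1] (fn ![1, 0, 0]) (fn ![0, 1, 0]) (fn ![0, 0, 1]) :=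
    { i1 := fn_int _, i2 := fn_int _, i3 := fn_int _
      d11 := by rw [fn_latt]; simp
      d12 := by rw [fn_latt]; simp
      d13 := by rw [fn_latt]; simp
      d21 := by rw [fn_latt]; simp
      d22 := by rw [fn_latt]; simp
      d23 := by rw [fn_latt]; simp
      d31 := by rw [fn_latt]; simp
      d32 := by rw [fn_latt]; simp
      d33 := by rw [fn_latt]; simp
      span := fun x => by
        ext i
        fin_cases i <;> simp [fn_apply, latt] <;> ring }
  refine good_smooth (isCone_tangentCone convex_P0 (mem_P0 (by decide))) D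
    (mem_cone (w := ![1, 0, 0]) (by decide) (by decide))
    (mem_cone (w := ![0, 1, 0]) (by decide) (by decide))
    (mem_cone (w := ![0, 0, 1]) (by decide) (by decide))
    ?_
  rintro x ⟨t, ht, p, hp, rfl⟩
  obtain ⟨h1, h2, h3, h4, h5, h6, h7, h8⟩ := ineq_P0 hp
  simp only [map_smul, smul_eq_mul]
  simp only [fn_apply, latt, Pi.sub_apply]
  simp only [Matrix.cons_val_zero, Matrix.cons_val_one, Matrix.cons_val]
  push_cast
  refine ⟨mul_nonneg ht (by linarith), mul_nonneg ht (by linarith),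
    mul_nonneg ht (by linarith)⟩

theorem good1 : Good (tangentCone P0 (latt ![0, 0, 1])) := by
  have D : Dual ![1, 0, 0] ![1, 1, 4] ![0, 0, -1] (fn ![1, -1, 0]) (fn ![0, 1, 0]) (fn ![0, 4, -1]) :=
    { i1 := fn_int _, i2 := fn_int _, i3 := fn_int _
      d11 := by rw [fn_latt]; simp
      d12 := by rw [fn_latt]; simp
      d13 := by rw [fn_latt]; simp
      d21 := by rw [fn_latt]; simp
      d22 := by rw [fn_latt]; simp
      d23 := by rw [fn_latt]; simp
      d31 := by rw [fn_latt]; simp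
      d32 := by rw [fn_latt]; simp
      d33 := by rw [fn_latt]; simp
      span := fun x => by
        ext i
        fin_cases i <;> simp [fn_apply, latt] <;> ring }
  refine good_four (b4 := ![0, 1, 0]) (isCone_tangentCone convex_P0 (mem_P0 (by decide))) D
    (by ext i; fin_cases i <;> simp [latt])
    (mem_cone (w := ![1, 0, 1]) (by decide) (by decide))
    (mem_cone (w := ![1, 1, 5]) (by decide) (by decide))
    (mem_cone (w := ![0, 0, 0]) (by decide) (by decide))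
    (mem_cone (w := ![0, 1, 1]) (by decide) (by decide))
    ?_
  rintro x ⟨t, ht, p, hp, rfl⟩
  obtain ⟨h1, h2, h3, h4, h5, h6, h7, h8⟩ := ineq_P0 hp
  simp only [map_smul, smul_eq_mul]
  simp only [fn_apply, latt, Pi.sub_apply]
  simp only [Matrix.cons_val_zero, Matrix.cons_val_one, Matrix.cons_val]
  push_cast
  refine ⟨mul_nonneg ht (by linarith), mul_nonneg ht (by linarith), ?_, ?_⟩
  · rw [← mul_add]; exact mul_nonneg ht (by linarith)
  · rw [mul_left_comm, ← mul_add]; exact mul_nonneg ht (by linarith)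

theorem good2 : Good (tangentCone P0 (latt ![1, 0, 0])) := by
  have D : Dual ![-1, 0, 0] ![-1, 1, 0] ![0, 0, 1] (fn ![-1, -1, 0]) (fn ![0, 1, 0]) (fn ![0, 0, 1]) :=
    { i1 := fn_int _, i2 := fn_int _, i3 := fn_int _
      d11 := by rw [fn_latt]; simp
      d12 := by rw [fn_latt]; simp
      d13 := by rw [fn_latt]; simp
      d21 := by rw [fn_latt]; simp
      d22 := by rw [fn_latt]; simp
      d23 := by rw [fn_latt]; simp
      d31 := by rw [fn_latt]; simp
      d32 := by rw [fn_latt]; simp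
      d33 := by rw [fn_latt]; simp
      span := fun x => by
        ext i
        fin_cases i <;> simp [fn_apply, latt] <;> ring }
  refine good_four (b4 := ![0, 1, 4]) (isCone_tangentCone convex_P0 (mem_P0 (by decide))) D
    (by ext i; fin_cases i <;> simp [latt])
    (mem_cone (w := ![0, 0, 0]) (by decide) (by decide))
    (mem_cone (w := ![0, 1, 0]) (by decide) (by decide))
    (mem_cone (w := ![1, 0, 1]) (by decide) (by decide))
    (mem_cone (w := ![1, 1, 4]) (by decide) (by decide))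
    ?_
  rintro x ⟨t, ht, p, hp, rfl⟩
  obtain ⟨h1, h2, h3, h4, h5, h6, h7, h8⟩ := ineq_P0 hp
  simp only [map_smul, smul_eq_mul]
  simp only [fn_apply, latt, Pi.sub_apply]
  simp only [Matrix.cons_val_zero, Matrix.cons_val_one, Matrix.cons_val]
  push_cast
  refine ⟨mul_nonneg ht (by linarith), mul_nonneg ht (by linarith), ?_, ?_⟩
  · rw [← mul_add]; exact mul_nonneg ht (by linarith)
  · rw [mul_left_comm, ← mul_add]; exact mul_nonneg ht (by linarith)

theorem good3 : Good (tangentCone P0 (latt ![1, 0, 1])) := by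
  have D : Dual ![0, 0, -1] ![-1, 0, 0] ![0, 1, 4] (fn ![0, 4, -1]) (fn ![-1, 0, 0]) (fn ![0, 1, 0]) :=
    { i1 := fn_int _, i2 := fn_int _, i3 := fn_int _
      d11 := by rw [fn_latt]; simp
      d12 := by rw [fn_latt]; simp
      d13 := by rw [fn_latt]; simp
      d21 := by rw [fn_latt]; simp
      d22 := by rw [fn_latt]; simp
      d23 := by rw [fn_latt]; simp
      d31 := by rw [fn_latt]; simp
      d32 := by rw [fn_latt]; simp
      d33 := by rw [fn_latt]; simp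
      span := fun x => by
        ext i
        fin_cases i <;> simp [fn_apply, latt] <;> ring }
  refine good_smooth (isCone_tangentCone convex_P0 (mem_P0 (by decide))) D
    (mem_cone (w := ![1, 0, 0]) (by decide) (by decide))
    (mem_cone (w := ![0, 0, 1]) (by decide) (by decide))
    (mem_cone (w := ![1, 1, 5]) (by decide) (by decide))
    ?_
  rintro x ⟨t, ht, p, hp, rfl⟩
  obtain ⟨h1, h2, h3, h4, h5, h6, h7, h8⟩ := ineq_P0 hp
  simp only [map_smul, smul_eq_mul]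
  simp only [fn_apply, latt, Pi.sub_apply]
  simp only [Matrix.cons_val_zero, Matrix.cons_val_one, Matrix.cons_val]
  push_cast
  refine ⟨mul_nonneg ht (by linarith), mul_nonneg ht (by linarith),
    mul_nonneg ht (by linarith)⟩

theorem good4 : Good (tangentCone P0 (latt ![0, 1, 0])) := by
  have D : Dual ![0, -1, 0] ![1, -1, 0] ![0, 0, 1] (fn ![-1, -1, 0]) (fn ![1, 0, 0]) (fn ![0, 0, 1]) :=
    { i1 := fn_int _, i2 := fn_int _, i3 := fn_int _
      d11 := by rw [fn_latt]; simp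
      d12 := by rw [fn_latt]; simp
      d13 := by rw [fn_latt]; simp
      d21 := by rw [fn_latt]; simp
      d22 := by rw [fn_latt]; simp
      d23 := by rw [fn_latt]; simp
      d31 := by rw [fn_latt]; simp
      d32 := by rw [fn_latt]; simp
      d33 := by rw [fn_latt]; simp
      span := fun x => by
        ext i
        fin_cases i <;> simp [fn_apply, latt] <;> ring }
  refine good_four (b4 := ![1, 0, 4]) (isCone_tangentCone convex_P0 (mem_P0 (by decide))) D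
    (by ext i; fin_cases i <;> simp [latt])
    (mem_cone (w := ![0, 0, 0]) (by decide) (by decide))
    (mem_cone (w := ![1, 0, 0]) (by decide) (by decide))
    (mem_cone (w := ![0, 1, 1]) (by decide) (by decide))
    (mem_cone (w := ![1, 1, 4]) (by decide) (by decide))
    ?_
  rintro x ⟨t, ht, p, hp, rfl⟩
  obtain ⟨h1, h2, h3, h4, h5, h6, h7, h8⟩ := ineq_P0 hp
  simp only [map_smul, smul_eq_mul]
  simp only [fn_apply, latt, Pi.sub_apply]
  simp only [Matrix.cons_val_zero, Matrix.cons_val_one, Matrix.cons_val]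
  push_cast
  refine ⟨mul_nonneg ht (by linarith), mul_nonneg ht (by linarith), ?_, ?_⟩
  · rw [← mul_add]; exact mul_nonneg ht (by linarith)
  · rw [mul_left_comm, ← mul_add]; exact mul_nonneg ht (by linarith)

theorem good5 : Good (tangentCone P0 (latt ![0, 1, 1])) := by
  have D : Dual ![0, 0, -1] ![0, -1, 0] ![1, 0, 4] (fn ![4, 0, -1]) (fn ![0, -1, 0]) (fn ![1, 0, 0]) :=
    { i1 := fn_int _, i2 := fn_int _, i3 := fn_int _
      d11 := by rw [fn_latt]; simp
      d12 := by rw [fn_latt]; simp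
      d13 := by rw [fn_latt]; simp
      d21 := by rw [fn_latt]; simp
      d22 := by rw [fn_latt]; simp
      d23 := by rw [fn_latt]; simp
      d31 := by rw [fn_latt]; simp
      d32 := by rw [fn_latt]; simp
      d33 := by rw [fn_latt]; simp
      span := fun x => by
        ext i
        fin_cases i <;> simp [fn_apply, latt] <;> ring }
  refine good_smooth (isCone_tangentCone convex_P0 (mem_P0 (by decide))) D
    (mem_cone (w := ![0, 1, 0]) (by decide) (by decide))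
    (mem_cone (w := ![0, 0, 1]) (by decide) (by decide))
    (mem_cone (w := ![1, 1, 5]) (by decide) (by decide))
    ?_
  rintro x ⟨t, ht, p, hp, rfl⟩
  obtain ⟨h1, h2, h3, h4, h5, h6, h7, h8⟩ := ineq_P0 hp
  simp only [map_smul, smul_eq_mul]
  simp only [fn_apply, latt, Pi.sub_apply]
  simp only [Matrix.cons_val_zero, Matrix.cons_val_one, Matrix.cons_val]
  push_cast
  refine ⟨mul_nonneg ht (by linarith), mul_nonneg ht (by linarith),
    mul_nonneg ht (by linarith)⟩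

theorem good6 : Good (tangentCone P0 (latt ![1, 1, 4])) := by
  have D : Dual ![0, -1, -4] ![-1, 0, -4] ![0, 0, 1] (fn ![0, -1, 0]) (fn ![-1, 0, 0]) (fn ![-4, -4, 1]) :=
    { i1 := fn_int _, i2 := fn_int _, i3 := fn_int _
      d11 := by rw [fn_latt]; simp
      d12 := by rw [fn_latt]; simp
      d13 := by rw [fn_latt]; simp
      d21 := by rw [fn_latt]; simp
      d22 := by rw [fn_latt]; simp
      d23 := by rw [fn_latt]; simp
      d31 := by rw [fn_latt]; simp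
      d32 := by rw [fn_latt]; simp
      d33 := by rw [fn_latt]; simp
      span := fun x => by
        ext i
        fin_cases i <;> simp [fn_apply, latt] <;> ring }
  refine good_smooth (isCone_tangentCone convex_P0 (mem_P0 (by decide))) D
    (mem_cone (w := ![1, 0, 0]) (by decide) (by decide))
    (mem_cone (w := ![0, 1, 0]) (by decide) (by decide))
    (mem_cone (w := ![1, 1, 5]) (by decide) (by decide))
    ?_
  rintro x ⟨t, ht, p, hp, rfl⟩
  obtain ⟨h1, h2, h3, h4, h5, h6, h7, h8⟩ := ineq_P0 hp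
  simp only [map_smul, smul_eq_mul]
  simp only [fn_apply, latt, Pi.sub_apply]
  simp only [Matrix.cons_val_zero, Matrix.cons_val_one, Matrix.cons_val]
  push_cast
  refine ⟨mul_nonneg ht (by linarith), mul_nonneg ht (by linarith),
    mul_nonneg ht (by linarith)⟩

theorem good7 : Good (tangentCone P0 (latt ![1, 1, 5])) := by
  have D : Dual ![0, -1, -4] ![-1, -1, -4] ![0, 0, -1] (fn ![1, -1, 0]) (fn ![-1, 0, 0]) (fn ![0, 4, -1]) :=
    { i1 := fn_int _, i2 := fn_int _, i3 := fn_int _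
      d11 := by rw [fn_latt]; simp
      d12 := by rw [fn_latt]; simp
      d13 := by rw [fn_latt]; simp
      d21 := by rw [fn_latt]; simp
      d22 := by rw [fn_latt]; simp
      d23 := by rw [fn_latt]; simp
      d31 := by rw [fn_latt]; simp
      d32 := by rw [fn_latt]; simp
      d33 := by rw [fn_latt]; simp
      span := fun x => by
        ext i
        fin_cases i <;> simp [fn_apply, latt] <;> ring }
  refine good_four (b4 := ![-1, 0, -4]) (isCone_tangentCone convex_P0 (mem_P0 (by decide))) D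
    (by ext i; fin_cases i <;> simp [latt])
    (mem_cone (w := ![1, 0, 1]) (by decide) (by decide))
    (mem_cone (w := ![0, 0, 1]) (by decide) (by decide))
    (mem_cone (w := ![1, 1, 4]) (by decide) (by decide))
    (mem_cone (w := ![0, 1, 1]) (by decide) (by decide))
    ?_
  rintro x ⟨t, ht, p, hp, rfl⟩
  obtain ⟨h1, h2, h3, h4, h5, h6, h7, h8⟩ := ineq_P0 hp
  simp only [map_smul, smul_eq_mul]
  simp only [fn_apply, latt, Pi.sub_apply]
  simp only [Matrix.cons_val_zero, Matrix.cons_val_one, Matrix.cons_val]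
  push_cast
  refine ⟨mul_nonneg ht (by linarith), mul_nonneg ht (by linarith), ?_, ?_⟩
  · rw [← mul_add]; exact mul_nonneg ht (by linarith)
  · rw [mul_left_comm, ← mul_add]; exact mul_nonneg ht (by linarith)

theorem extreme_mem {v : Fin 3 → ℝ} (hv : v ∈ P0.extremePoints ℝ) : ∃ w ∈ V0, v = latt w := by
  obtain ⟨w, hw, rfl⟩ := extremePoints_convexHull_subset hv
  exact ⟨w, hw, rfl⟩

theorem good_all {v : Fin 3 → ℝ} (hv : v ∈ P0.extremePoints ℝ) : Good (tangentCone P0 v) := by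
  obtain ⟨w, hw, rfl⟩ := extreme_mem hv
  simp only [V0, Finset.mem_insert, Finset.mem_singleton] at hw
  rcases hw with rfl | rfl | rfl | rfl | rfl | rfl | rfl | rfl
  exacts [good0, good1, good2, good3, good4, good5, good6, good7]

theorem gammaCone_eq {Q : Set (Fin 3 → ℝ)} (hQ : IsCone Q) (hG : Good Q) : GammaCone Q = 0 := by
  have hsub : SQ Q ⊆ Q := by
    rintro x ⟨T, a, ha, rfl⟩
    refine Finset.sum_induction _ (· ∈ Q) (fun x y hx hy => hQ.add x hx y hy) hQ.zero ?_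
    intro w hw
    exact hQ.smul _ (ha w hw).2.1 _ (hilb_of_rayGen hQ (ha w hw).1).1
  have h0 : ∀ u, latt u ∈ Q → sSup (htSet Q u) - sSup (ordSet Q u) = 0 := by
    intro u hu
    obtain ⟨k, h1, h2⟩ := hG u hu
    rw [h1.csSup_eq, h2.csSup_eq, sub_self]
  have : {g | ∃ u : Fin 3 → ℤ, latt u ∈ SQ Q ∧ g = sSup (htSet Q u) - sSup (ordSet Q u)}
      = {(0 : ℝ)} := by
    ext g
    constructor
    · rintro ⟨u, hu, rfl⟩
      exact h0 u (hsub hu)
    · rintro rfl
      refine ⟨0, ⟨∅, fun _ => 0, by simp, by simp [latt_zero]⟩, ?_⟩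
      rw [h0 0 (by rw [latt_zero]; exact hQ.zero)]
  rw [GammaCone, this, csSup_singleton]

theorem edge0 : IsEdge P0 (segment ℝ (latt ![0, 0, 0]) (latt ![0, 0, 1])) := by
  refine ⟨⟨_, _, fun h => absurd (latt_inj h) (by decide), rfl⟩, ?_, ?_⟩
  · exact convex_P0.segment_subset (mem_P0 (by decide)) (mem_P0 (by decide))
  · rintro x hx y hy z ⟨c, d, hc, hd, hcd, rfl⟩ ⟨a, b, ha, hb, hab, h⟩
    obtain ⟨x1, x2, x3, x4, x5, x6, x7, x8⟩ := ineq_P0 hx
    obtain ⟨y1, y2, y3, y4, y5, y6, y7, y8⟩ := ineq_P0 hy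
    have e0 := congrFun h 0
    have e1 := congrFun h 1
    simp [latt] at e0 e1
    have f0 : x 0 = 0 := by nlinarith
    have f1 : x 1 = 0 := by nlinarith
    refine ⟨1 - x 2, x 2, by linarith, x5, by ring, ?_⟩
    ext i
    fin_cases i <;> simp [latt, f0, f1]

theorem vertex0 : latt ![0, 0, 0] ∈ P0.extremePoints ℝ := by
  refine ⟨mem_P0 (by decide), ?_⟩
  rintro x hx y hy ⟨a, b, ha, hb, hab, h⟩
  obtain ⟨x1, x2, x3, x4, x5, x6, x7, x8⟩ := ineq_P0 hx
  obtain ⟨y1, y2, y3, y4, y5, y6, y7, y8⟩ := ineq_P0 hy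
  have e0 := congrFun h 0
  have e1 := congrFun h 1
  have e2 := congrFun h 2
  simp [latt] at e0 e1 e2
  have f0 : x 0 = 0 := by nlinarith
  have f1 : x 1 = 0 := by nlinarith
  have f2 : x 2 = 0 := by nlinarith
  ext i
  fin_cases i <;> simp [latt, f0, f1, f2]

theorem finite_P0 : {m : Fin 3 → ℤ | latt m ∈ P0}.Finite := by
  apply (Set.finite_Icc (fun _ : Fin 3 => (0 : ℤ)) (fun _ => (5 : ℤ))).subset
  intro m hm
  obtain ⟨x1, x2, x3, x4, x5, x6, x7, x8⟩ := ineq_P0 hm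
  simp only [latt] at x1 x2 x3 x4 x5 x6 x7 x8
  have y1 : (0 : ℤ) ≤ m 0 := by exact_mod_cast x1
  have y2 : m 0 ≤ (1 : ℤ) := by exact_mod_cast x2
  have y3 : (0 : ℤ) ≤ m 1 := by exact_mod_cast x3
  have y4 : m 1 ≤ (1 : ℤ) := by exact_mod_cast x4
  have y5 : (0 : ℤ) ≤ m 2 := by exact_mod_cast x5
  have y7 : m 2 ≤ 1 + 4 * m 0 := by exact_mod_cast x7
  constructor <;> intro i <;> fin_cases i <;> simp <;> omega

theorem left_extreme {u v : Fin 3 → ℝ} (h : u ≠ v) : u ∈ (segment ℝ u v).extremePoints ℝ := by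
  refine ⟨left_mem_segment _ _ _, ?_⟩
  rintro x ⟨c, d, hc, hd, hcd, rfl⟩ y ⟨c', d', hc', hd', hcd', rfl⟩ ⟨a, b, ha, hb, hab, e⟩
  obtain ⟨i, hi⟩ : ∃ i, u i ≠ v i := by
    by_contra hc
    push Not at hc
    exact h (funext hc)
  have ei := congrFun e i
  simp only [Pi.add_apply, Pi.smul_apply, smul_eq_mul] at ei
  have h1 : c = 1 - d := by linarith
  have h2 : c' = 1 - d' := by linarith
  have h3 : b = 1 - a := by linarith
  have h4 : (a * d + b * d') * (v i - u i) = 0 := by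
    subst h1 h2 h3
    linarith
  have h5 : a * d + b * d' = 0 := by
    rcases mul_eq_zero.mp h4 with h6 | h6
    · exact h6
    · exact absurd (by linarith) hi
  have h6 : d = 0 := by nlinarith
  rw [h1, h6]
  simp

theorem one_le_length {e : Set (Fin 3 → ℝ)} (he : IsEdge P0 e) : 1 ≤ latticeLength e := by
  obtain ⟨⟨u, v, huv, rfl⟩, hext⟩ := he
  obtain ⟨a, _, rfl⟩ := extreme_mem (hext.extremePoints_subset_extremePoints (left_extreme huv))
  have h2 := left_extreme huv.symm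
  rw [segment_symm] at h2
  obtain ⟨b, _, rfl⟩ := extreme_mem (hext.extremePoints_subset_extremePoints h2)
  have hfin : {m : Fin 3 → ℤ | latt m ∈ segment ℝ (latt a) (latt b)}.Finite :=
    finite_P0.subset (fun m hm => hext.subset hm)
  have : 1 < {m : Fin 3 → ℤ | latt m ∈ segment ℝ (latt a) (latt b)}.ncard := by
    rw [Set.one_lt_ncard hfin]
    exact ⟨a, left_mem_segment _ _ _, b, right_mem_segment _ _ _, fun h => huv (by rw [h])⟩
  unfold latticeLength
  omega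

theorem length_edge0 : latticeLength (segment ℝ (latt ![0, 0, 0]) (latt ![0, 0, 1])) = 1 := by
  have : {m : Fin 3 → ℤ | latt m ∈ segment ℝ (latt ![0, 0, 0]) (latt ![0, 0, 1])}
      = {![0, 0, 0], ![0, 0, 1]} := by
    ext m
    constructor
    · rintro ⟨c, d, hc, hd, hcd, h⟩
      have e0 := congrFun h 0
      have e1 := congrFun h 1
      have e2 := congrFun h 2
      simp [latt] at e0 e1 e2
      have f0 : m 0 = 0 := by exact_mod_cast e0.symm
      have f1 : m 1 = 0 := by exact_mod_cast e1.symm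
      have g1 : (0 : ℤ) ≤ m 2 := by
        have : (0 : ℝ) ≤ m 2 := by linarith
        exact_mod_cast this
      have g2 : m 2 ≤ (1 : ℤ) := by
        have : (m 2 : ℝ) ≤ 1 := by linarith
        exact_mod_cast this
      have g3 : m 2 = 0 ∨ m 2 = 1 := by omega
      rcases g3 with g | g
      · left; ext i; fin_cases i <;> simp [f0, f1, g]
      · right; ext i; fin_cases i <;> simp [f0, f1, g]
    · rintro (rfl | rfl)
      · exact left_mem_segment _ _ _
      · exact right_mem_segment _ _ _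
  rw [latticeLength, this, Set.ncard_pair (by decide)]

theorem L_eq : L P0 = 1 := by
  have : IsLeast {l | ∃ e, IsEdge P0 e ∧ l = latticeLength e} 1 := by
    refine ⟨⟨_, edge0, length_edge0.symm⟩, ?_⟩
    rintro l ⟨e, he, rfl⟩
    exact one_le_length he
  exact this.csInf_eq

theorem Gamma_eq : Gamma P0 = 0 := by
  have h0 : ∀ v ∈ P0.extremePoints ℝ, GammaCone (tangentCone P0 v) = 0 := fun v hv =>
    gammaCone_eq (isCone_tangentCone convex_P0 hv.1) (good_all hv)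
  have : {g | ∃ v ∈ P0.extremePoints ℝ, g = GammaCone (tangentCone P0 v)} = {(0 : ℝ)} := by
    ext g
    constructor
    · rintro ⟨v, hv, rfl⟩
      exact h0 v hv
    · rintro rfl
      exact ⟨_, vertex0, (h0 _ vertex0).symm⟩
  rw [Gamma, this, csSup_singleton]

theorem span_top : affineSpan ℝ P0 = ⊤ := by
  rw [eq_top_iff]
  intro x _
  have m0 := subset_affineSpan ℝ P0 (mem_P0 (v := ![0, 0, 0]) (by decide))
  have m1 := subset_affineSpan ℝ P0 (mem_P0 (v := ![1, 0, 0]) (by decide))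
  have m2 := subset_affineSpan ℝ P0 (mem_P0 (v := ![0, 1, 0]) (by decide))
  have m3 := subset_affineSpan ℝ P0 (mem_P0 (v := ![0, 0, 1]) (by decide))
  have s1 := (affineSpan ℝ P0).smul_vsub_vadd_mem (x 0) m1 m0 m0
  have s2 := (affineSpan ℝ P0).smul_vsub_vadd_mem (x 1) m2 m0 s1
  have s3 := (affineSpan ℝ P0).smul_vsub_vadd_mem (x 2) m3 m0 s2
  convert s3 using 1
  ext i
  fin_cases i <;> simp [latt]

theorem not_closed : ¬ IntegrallyClosed P0 := by
  intro h
  have hm : latt ![1, 1, 3] ∈ (((1 : ℕ) : ℝ) + 1) • P0 := by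
    have a1 := convex_P0 (mem_P0 (v := ![1, 0, 0]) (by decide))
      (mem_P0 (v := ![0, 1, 0]) (by decide)) (a := 1 / 2) (b := 1 / 2)
      (by norm_num) (by norm_num) (by norm_num)
    have a2 := convex_P0 (mem_P0 (v := ![0, 0, 1]) (by decide))
      (mem_P0 (v := ![1, 1, 5]) (by decide)) (a := 1 / 2) (b := 1 / 2)
      (by norm_num) (by norm_num) (by norm_num)
    have a3 := convex_P0 a1 a2 (a := 1 / 2) (b := 1 / 2)
      (by norm_num) (by norm_num) (by norm_num)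
    refine ⟨_, a3, ?_⟩
    ext i
    fin_cases i <;> simp [latt] <;> norm_num
  obtain ⟨a, b, ha, hb, hab⟩ := (h 1 le_rfl _).mpr hm
  simp only [Nat.cast_one, one_smul] at hb
  obtain ⟨x1, x2, x3, x4, x5, x6, x7, x8⟩ := ineq_P0 ha
  obtain ⟨y1, y2, y3, y4, y5, y6, y7, y8⟩ := ineq_P0 hb
  simp only [latt] at x1 x2 x3 x4 x5 x6 x7 x8 y1 y2 y3 y4 y5 y6 y7 y8
  have e0 := congrFun hab 0
  have e1 := congrFun hab 1
  have e2 := congrFun hab 2
  simp at e0 e1 e2
  norm_cast at x1 x2 x3 x4 x5 x6 x7 x8 y1 y2 y3 y4 y5 y6 y7 y8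
  omega

theorem result :
    ∃ V : Finset (Fin 3 → ℤ), ∀ P : Set (Fin 3 → ℝ),
      P = convexHull ℝ (latt '' (V : Set (Fin 3 → ℤ))) →
        affineSpan ℝ P = ⊤ ∧
        (∀ v ∈ P.extremePoints ℝ, ∀ u : Fin 3 → ℤ, latt u ∈ tangentCone P v →
          ∃ k : ℕ, IsGreatest (htSet (tangentCone P v) u) (k : ℝ) ∧
            IsGreatest (ordSet (tangentCone P v) u) (k : ℝ)) ∧
        Gamma P = 0 ∧ L P = 1 ∧ Gamma P + 1 ≤ (L P : ℝ) ∧ ¬ IntegrallyClosed P := by
  refine ⟨V0, ?_⟩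
  rintro P rfl
  refine ⟨span_top, fun v hv => good_all hv, Gamma_eq, L_eq, ?_, not_closed⟩
  change Gamma P0 + 1 ≤ (L P0 : ℝ)
  rw [Gamma_eq, L_eq]
  simp

end Pool.Agent.Results.MP_8f98a9_co.Counter
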